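import Pool.Agent.Kirch553.Lower

/-!
# A positive-fraction version of Kirchberger's theorem

For every `d ≥ 1` the statement of Q1 holds with `g(ε) = 16 ε^(1/(d+1))`, and the exponent
`1/(d+1)` cannot be improved.
-/

open Finset Filter Topology

namespace Pool.Agent.Results.MP_ff3a4f_co.PositiveFraction

/-- General position: no `d + 1` points of `S` lie on a common affine hyperplane
`{x | l x = c}`, `l ≠ 0`. -/
def GeneralPosition {d : ℕ} (S : Finset (EuclideanSpace ℝ (Fin d))) : Prop :=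
  ∀ T ⊆ S, T.card = d + 1 →
    ∀ (l : EuclideanSpace ℝ (Fin d) →ₗ[ℝ] ℝ) (c : ℝ), l ≠ 0 → ¬ ∀ x ∈ T, l x = c

/-- Some hyperplane `{x | l x = c}` has `P` in one open half-space and `Q` in the other. -/
def Separated {d : ℕ} (P Q : Finset (EuclideanSpace ℝ (Fin d))) : Prop :=
  ∃ (l : EuclideanSpace ℝ (Fin d) →ₗ[ℝ] ℝ) (c : ℝ), l ≠ 0 ∧
    (∀ x ∈ P, c < l x) ∧ (∀ y ∈ Q, l y < c)

open Classical in
/-- The good `(d + 2)`-element subsets `S` of `A ∪ B`: those for which some hyperplane separates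
`A ∩ S` from `B ∩ S`. -/
noncomputable def goodSets {d : ℕ} (A B : Finset (EuclideanSpace ℝ (Fin d))) :
    Finset (Finset (EuclideanSpace ℝ (Fin d))) :=
  ((A ∪ B).powersetCard (d + 2)).filter fun S => Separated (A ∩ S) (B ∩ S)

open Classical in
/-- The statement of Q1 in dimension `d` for a given function `g`: for all `ε > 0`, all `N` (with
`2 N > d`, otherwise general position would be void) and all disjoint `A`, `B` of size `N` with
`A ∪ B` in general position, if at least a `(1 - ε)` fraction of the `(d + 2)`-subsets of `A ∪ B`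
is good, then some separated `A' ⊆ A`, `B' ⊆ B` have at least `(1 - g(ε)) N` elements each. -/
def HoldsWith (d : ℕ) (g : ℝ → ℝ) : Prop :=
  ∀ ε : ℝ, 0 < ε → ∀ (N : ℕ) (A B : Finset (EuclideanSpace ℝ (Fin d))),
    d < 2 * N → A.card = N → B.card = N → Disjoint A B → GeneralPosition (A ∪ B) →
    (1 - ε) * ((2 * N).choose (d + 2) : ℝ) ≤ ((goodSets A B).card : ℝ) →
    ∃ A' ⊆ A, ∃ B' ⊆ B, Separated A' B' ∧
      (1 - g ε) * N ≤ (A'.card : ℝ) ∧ (1 - g ε) * N ≤ (B'.card : ℝ)

lemma indep_of_generalPosition {d : ℕ} {S T : Finset (EuclideanSpace ℝ (Fin d))}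
    (hS : GeneralPosition S) (hT : T ⊆ S) (hTc : T.card = d + 1) :
    AffineIndependent ℝ (fun x : T => (x : EuclideanSpace ℝ (Fin d))) := by
  classical
  by_contra hdep
  have hfr : Module.finrank ℝ (vectorSpan ℝ (Set.range fun x : T =>
      (x : EuclideanSpace ℝ (Fin d)))) ≠ d := by
    intro h
    exact hdep ((affineIndependent_iff_finrank_vectorSpan_eq ℝ
      (fun x : T => (x : EuclideanSpace ℝ (Fin d))) (n := d) (by simpa using hTc)).mpr h)
  have hlt : vectorSpan ℝ (Set.range fun x : T => (x : EuclideanSpace ℝ (Fin d))) < ⊤ := by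
    rw [lt_top_iff_ne_top]
    intro h
    apply hfr
    rw [h, finrank_top, finrank_euclideanSpace_fin]
  obtain ⟨f, hf, hker⟩ := Submodule.exists_le_ker_of_lt_top _ hlt
  obtain ⟨x0, hx0⟩ : T.Nonempty := Finset.card_pos.mp (by omega)
  refine hS T hT hTc f (f x0) hf fun x hx => ?_
  have h1 : x -ᵥ x0 ∈ vectorSpan ℝ (Set.range fun x : T => (x : EuclideanSpace ℝ (Fin d))) :=
    vsub_mem_vectorSpan ℝ ⟨⟨x, hx⟩, rfl⟩ ⟨⟨x0, hx0⟩, rfl⟩
  have h2 := LinearMap.mem_ker.mp (hker h1)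
  rw [vsub_eq_sub, map_sub] at h2
  linarith

lemma genPos_of_generalPosition {d : ℕ} {S : Finset (EuclideanSpace ℝ (Fin d))}
    (hS : GeneralPosition S) (hc : d < S.card) : Kirch553.GenPos S := by
  intro T hT hTc
  obtain ⟨T', hTT', hT'S, hT'c⟩ := Finset.exists_subsuperset_card_eq hT hTc hc
  have h := indep_of_generalPosition hS hT'S hT'c
  exact h.mono (s := (T : Set (EuclideanSpace ℝ (Fin d))))
    (t := (T' : Set (EuclideanSpace ℝ (Fin d)))) (by exact_mod_cast hTT')

lemma generalPosition_of_genPos {d : ℕ} {S : Finset (EuclideanSpace ℝ (Fin d))}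
    (hS : Kirch553.GenPos S) : GeneralPosition S := by
  intro T hT hTc l c hl hcon
  have h := hS T hT (by omega)
  have h1 := h.vectorSpan_eq_top_of_card_eq_finrank_add_one
    (by rw [finrank_euclideanSpace_fin]; simpa using hTc)
  apply hl
  have h2 : vectorSpan ℝ (Set.range fun x : T => (x : EuclideanSpace ℝ (Fin d))) ≤
      LinearMap.ker l := by
    rw [vectorSpan_def, Submodule.span_le]
    rintro _ ⟨_, ⟨x, rfl⟩, _, ⟨y, rfl⟩, rfl⟩
    simp [hcon x x.2, hcon y y.2]
  rw [h1, top_le_iff] at h2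
  exact LinearMap.ker_eq_top.mp h2

open Classical in
/-- **Positive-fraction Kirchberger theorem, with the sharp order of `g`.**  For every `d ≥ 1`:
Q1 holds with `g(ε) = 16 ε^(1/(d+1))`; this `g` tends to `0` as `ε → 0+`; and every `g` for which
the statement holds satisfies `g(ε) ≥ (ε / (2 (d+2)!))^(1/(d+1))` for all
`0 < ε ≤ 2 (d+2)! / (d+1)^(d+1)`. -/
theorem result (d : ℕ) (hd : 1 ≤ d) :
    HoldsWith d (fun ε => 16 * ε ^ ((1 : ℝ) / (d + 1))) ∧
    Tendsto (fun ε : ℝ => 16 * ε ^ ((1 : ℝ) / (d + 1))) (𝓝[>] 0) (𝓝 0) ∧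
    ∀ g : ℝ → ℝ, HoldsWith d g → ∀ ε : ℝ, 0 < ε →
      ε ≤ 2 * ((d + 2).factorial : ℝ) / ((d : ℝ) + 1) ^ (d + 1) →
      (ε / (2 * ((d + 2).factorial : ℝ))) ^ ((1 : ℝ) / (d + 1)) ≤ g ε := by
  refine ⟨?_, ?_, ?_⟩
  · intro ε hε N A B hN hA hB hdis hgp hgood
    have hcard : (A ∪ B).card = 2 * N := by
      rw [Finset.card_union_of_disjoint hdis, hA, hB]; ring
    exact Kirch553.works_upper d hd ε hε N A B hA hB hdis
      (genPos_of_generalPosition hgp (by rw [hcard]; exact hN)) hgood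
  · have hpos : (0 : ℝ) < 1 / ((d : ℝ) + 1) := by positivity
    have h1 : Tendsto (fun ε : ℝ => ε ^ ((1 : ℝ) / (d + 1))) (𝓝 0) (𝓝 (0 ^ ((1 : ℝ) / (d + 1)))) :=
      (Real.continuousAt_rpow_const 0 _ (Or.inr hpos.le)).tendsto
    rw [Real.zero_rpow hpos.ne'] at h1
    have h2 := (h1.const_mul 16).mono_left (nhdsWithin_le_nhds (s := Set.Ioi 0))
    simpa using h2
  · intro g hg ε hε hε'
    exact Kirch553.works_lower d hd g (fun ε hε N A B hN hA hB hdis hgp hgood =>
      hg ε hε N A B hN hA hB hdis (generalPosition_of_genPos hgp) hgood) ε hε hε'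

end Pool.Agent.Results.MP_ff3a4f_co.PositiveFraction
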